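import Pool.Agent.BOX.StmtsN

/-! Squad BOX (MP_be01ff_an), row GDN: the class `Good3` is stable. -/

namespace Pool.Agent.BOX.H24

open Set Filter Topology MeasureTheory

noncomputable section

variable {N : ℕ}

/-- polynomials are bounded by exponentials -/
theorem poly_exp (r : ℝ) (hr : 1 < r) (τ : ℕ) :
    ∃ C : ℝ, 0 ≤ C ∧ ∀ n : ℕ, (1 + (n : ℝ)) ^ τ ≤ C * r ^ n := by
  have hr0 : 0 < r := by linarith
  obtain ⟨C, hC⟩ := (tendsto_pow_const_div_const_pow_of_one_lt τ hr).bddAbove_range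
  have hC' : ∀ n : ℕ, (n : ℝ) ^ τ / r ^ n ≤ C := fun n => hC ⟨n, rfl⟩
  have hC0 : 0 ≤ C := le_trans (by positivity) (hC' 1)
  refine ⟨C * r, by positivity, fun n => ?_⟩
  have h1 := hC' (n + 1)
  rw [div_le_iff₀ (by positivity)] at h1
  push_cast at h1
  calc (1 + (n : ℝ)) ^ τ = ((n : ℝ) + 1) ^ τ := by rw [add_comm]
    _ ≤ C * r ^ (n + 1) := h1
    _ = C * r * r ^ n := by ring

theorem flp_abs (i j : Fin N) (k : Fin N → ℤ) : |flp i k j| = |k j| := by
  show |if j = i then - k j else k j| = |k j|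
  split_ifs
  · exact abs_neg _
  · rfl

theorem flp_natAbs (i j : Fin N) (k : Fin N → ℤ) : (flp i k j).natAbs = (k j).natAbs := by
  show (if j = i then - k j else k j).natAbs = (k j).natAbs
  split_ifs
  · exact Int.natAbs_neg _
  · rfl

theorem frq_flp (l : Fin N → ℝ) (i : Fin N) (k : Fin N → ℤ) : frq l (flp i k) = frq l k := by
  unfold frq
  congr 1
  refine Finset.sum_congr rfl fun j _ => ?_
  have h1 : ((flp i k j : ℤ) : ℝ) ^ 2 = ((k j : ℤ) : ℝ) ^ 2 := by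
    have h2 := flp_abs i j k
    have h3 : |((flp i k j : ℤ) : ℝ)| = |((k j : ℤ) : ℝ)| := by exact_mod_cast h2
    rw [← sq_abs, h3, sq_abs]
  rw [div_pow, mul_pow, h1, ← mul_pow, ← div_pow]

theorem R3_flp (i : Fin N) (p : ℤ) (k : Fin N → ℤ) :
    ((p, flp i k) : G3 N) ∈ (R3 : Set (G3 N)) ↔ ((p, k) : G3 N) ∈ (R3 : Set (G3 N)) := by
  constructor
  · rintro ⟨h1, h2, h3⟩
    refine ⟨h1, h2, fun j => ?_⟩
    have h4 := h3 j
    simp only at h4 ⊢
    rw [flp_abs] at h4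
    exact h4
  · rintro ⟨h1, h2, h3⟩
    refine ⟨h1, h2, fun j => ?_⟩
    have h4 := h3 j
    simp only at h4 ⊢
    rw [flp_abs]
    exact h4

theorem nr3_add (g h : G3 N) : nr3 (g + h) ≤ nr3 g + nr3 h := by
  unfold nr3
  have h1 : (g + h).1.natAbs ≤ g.1.natAbs + h.1.natAbs := Int.natAbs_add_le _ _
  have h2 : ∑ i, ((g + h).2 i).natAbs ≤ ∑ i, (g.2 i).natAbs + ∑ i, (h.2 i).natAbs := by
    rw [← Finset.sum_add_distrib]
    exact Finset.sum_le_sum fun i _ => Int.natAbs_add_le _ _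
  omega

theorem nr3_neg (g : G3 N) : nr3 ((-g.1, g.2) : G3 N) = nr3 g := by
  unfold nr3
  rw [Int.natAbs_neg]

theorem wt3 {r : ℝ} (hr : 1 < r) : Wt (fun g : G3 N => r ^ nr3 g) := by
  refine ⟨fun g => one_le_pow₀ hr.le, fun g h => ?_⟩
  rw [← pow_add]
  exact pow_le_pow_right₀ hr.le (nr3_add g h)

theorem smaller {r s : ℝ} (hs : 1 < s) (hsr : s ≤ r) {F : G3 N → ℂ}
    (h : Summable fun g => ‖F g‖ * r ^ nr3 g) : Summable fun g => ‖F g‖ * s ^ nr3 g := by
  refine Summable.of_nonneg_of_le (fun g => by positivity) (fun g => ?_) h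
  exact mul_le_mul_of_nonneg_left (pow_le_pow_left₀ (by linarith) hsr _) (norm_nonneg _)

theorem good_add {F G : G3 N → ℂ} (hF : Good3 F) (hG : Good3 G) :
    Good3 (fun g => F g + G g) := by
  obtain ⟨⟨r, hr, h1⟩, h2, h3⟩ := hF
  obtain ⟨⟨s, hs, k1⟩, k2, k3⟩ := hG
  refine ⟨⟨min r s, lt_min hr hs, ?_⟩, ?_, ?_⟩
  · have e1 := smaller (lt_min hr hs) (min_le_left _ _) h1
    have e2 := smaller (lt_min hr hs) (min_le_right _ _) k1
    have hm : 0 < min r s := lt_min (by linarith) (by linarith)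
    refine Summable.of_nonneg_of_le (fun g => by positivity) (fun g => ?_) (e1.add e2)
    rw [← add_mul]
    exact mul_le_mul_of_nonneg_right (norm_add_le _ _) (by positivity)
  · intro p k i
    show F (p, flp i k) + G (p, flp i k) = F (p, k) + G (p, k)
    rw [h2, k2]
  · intro g hg
    by_cases hFg : F g = 0
    · refine k3 g fun h0 => hg ?_
      show F g + G g = 0
      rw [hFg, h0, add_zero]
    · exact h3 g hFg

theorem good_smul {F : G3 N → ℂ} (c : ℂ) (hF : Good3 F) : Good3 (fun g => c * F g) := by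
  obtain ⟨⟨r, hr, h1⟩, h2, h3⟩ := hF
  refine ⟨⟨r, hr, ?_⟩, ?_, ?_⟩
  · refine (h1.mul_left ‖c‖).congr fun g => ?_
    rw [norm_mul]
    ring
  · intro p k i
    show c * F (p, flp i k) = c * F (p, k)
    rw [h2]
  · intro g hg
    exact h3 g fun h0 => hg (by show c * F g = 0; rw [h0, mul_zero])

theorem good_neg {F : G3 N → ℂ} (hF : Good3 F) :
    Good3 (fun g : G3 N => (starRingEnd ℂ) (F (-g.1, g.2))) := by
  obtain ⟨⟨r, hr, h1⟩, h2, h3⟩ := hF
  refine ⟨⟨r, hr, ?_⟩, ?_, ?_⟩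
  · have h4 := (Equiv.prodCongr (Equiv.neg ℤ) (Equiv.refl (Fin N → ℤ))).summable_iff.2 h1
    refine h4.congr fun g => ?_
    show ‖F (-g.1, g.2)‖ * r ^ nr3 ((-g.1, g.2) : G3 N) = _
    rw [nr3_neg, RCLike.norm_conj]
  · intro p k i
    show (starRingEnd ℂ) (F (-p, flp i k)) = (starRingEnd ℂ) (F (-p, k))
    rw [h2]
  · intro g hg
    obtain ⟨h5, h6⟩ := h3 (-g.1, g.2) fun h0 => hg (by
      show (starRingEnd ℂ) (F (-g.1, g.2)) = 0
      rw [h0, map_zero])
    refine ⟨?_, h6⟩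
    have h7 : Odd (-g.1) := h5
    simpa using h7.neg

theorem good_vp {F : G3 N → ℂ} (hF : Good3 F) : Good3 (Vp F) := by
  have h1 := good_smul (1 / 2) (good_add hF (good_neg hF))
  have h2 : Vp F = fun g : G3 N => (1 / 2 : ℂ) * (F g + (starRingEnd ℂ) (F (-g.1, g.2))) := by
    funext g
    unfold Vp
    ring
  rw [h2]
  exact h1

theorem good_sum {F : G3 N → ℂ} (hF : Good3 F) : Summable fun g => ‖F g‖ := by
  obtain ⟨⟨r, hr, h1⟩, h2, h3⟩ := hF
  refine Summable.of_nonneg_of_le (fun g => norm_nonneg _) (fun g => ?_) h1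
  exact le_mul_of_one_le_right (norm_nonneg _) (one_le_pow₀ hr.le)

theorem good_t3 (t3a : T3aStmt) (t3s : T3sStmt) {F G H : G3 N → ℂ} (hF : Good3 F)
    (hG : Good3 G) (hH : Good3 H) : Good3 (T3 F G H) := by
  have sF := good_sum hF
  have sG := good_sum hG
  have sH := good_sum hH
  obtain ⟨⟨r1, hr1, a1⟩, a2, a3⟩ := hF
  obtain ⟨⟨r2, hr2, b1⟩, b2, b3⟩ := hG
  obtain ⟨⟨r3, hr3, c1⟩, c2, c3⟩ := hH
  obtain ⟨r, hr⟩ : ∃ r : ℝ, r = min r1 (min r2 r3) := ⟨_, rfl⟩
  have hr0 : 1 < r := by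
    rw [hr]
    exact lt_min hr1 (lt_min hr2 hr3)
  have e1 : Sm (fun g : G3 N => r ^ nr3 g) F :=
    smaller hr0 (by rw [hr]; exact min_le_left _ _) a1
  have e2 : Sm (fun g : G3 N => r ^ nr3 g) G :=
    smaller hr0 (by rw [hr]; exact le_trans (min_le_right _ _) (min_le_left _ _)) b1
  have e3 : Sm (fun g : G3 N => r ^ nr3 g) H :=
    smaller hr0 (by rw [hr]; exact le_trans (min_le_right _ _) (min_le_right _ _)) c1
  refine ⟨⟨r, hr0, (t3a (G3 N) ℂ _ F G H (wt3 hr0) e1 e2 e3).2.1⟩, ?_, ?_⟩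
  · intro p k i
    have h1 := (t3s (G3 N) ℂ F F G H sF sF sG sH (p, k)).2.2.2.2
      (AddEquiv.prodCongr (AddEquiv.refl ℤ) (flp i))
    have f1 : (fun x : G3 N => F ((AddEquiv.prodCongr (AddEquiv.refl ℤ) (flp i)) x)) = F := by
      funext x
      exact a2 x.1 x.2 i
    have f2 : (fun x : G3 N => G ((AddEquiv.prodCongr (AddEquiv.refl ℤ) (flp i)) x)) = G := by
      funext x
      exact b2 x.1 x.2 i
    have f3 : (fun x : G3 N => H ((AddEquiv.prodCongr (AddEquiv.refl ℤ) (flp i)) x)) = H := by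
      funext x
      exact c2 x.1 x.2 i
    rw [f1, f2, f3] at h1
    exact h1.symm
  · intro g hg
    have hex : ∃ h : G3 N × G3 N, F h.1 * G h.2 * H (g - h.1 - h.2) ≠ 0 := by
      by_contra hno
      push Not at hno
      apply hg
      unfold T3
      rw [tsum_congr hno, tsum_zero]
    obtain ⟨⟨x, y⟩, hxy⟩ := hex
    have hx : F x ≠ 0 := fun h0 => hxy (by simp only [h0, zero_mul])
    have hy : G y ≠ 0 := fun h0 => hxy (by simp only [h0, mul_zero, zero_mul])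
    have hz : H (g - x - y) ≠ 0 := fun h0 => hxy (by simp only [h0, mul_zero])
    obtain ⟨p1, q1⟩ := a3 x hx
    obtain ⟨p2, q2⟩ := b3 y hy
    obtain ⟨p3, q3⟩ := c3 _ hz
    have key : ∀ a b c : ℤ, Odd a → Odd b → Odd (c - a - b) → Odd c := by
      intro a b c ha hb hc
      have h1 : c = (c - a - b) + (a + b) := by ring
      rw [h1]
      exact hc.add_even (ha.add_odd hb)
    exact ⟨key _ _ _ p1 p2 p3, fun i => key _ _ _ (q1 i) (q2 i) (q3 i)⟩

theorem good_div (l : Fin N → ℝ) (hdiv : Div3 l) {F : G3 N → ℂ} (hF : Good3 F) :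
    Good3 (R3ᶜ.indicator fun g => F g / (Complex.I * (sg (th3 l) (frq l) g : ℂ))) := by
  obtain ⟨⟨r, hr, h1⟩, h2, h3⟩ := hF
  obtain ⟨c, hc, τ, hd⟩ := hdiv
  obtain ⟨ρ, hρ⟩ : ∃ ρ : ℝ, ρ = Real.sqrt r := ⟨_, rfl⟩
  have hr0 : 0 < r := by linarith
  have hρ1 : 1 < ρ := by
    rw [hρ, Real.lt_sqrt (by norm_num)]
    linarith
  have hρ2 : ρ * ρ = r := by rw [hρ, Real.mul_self_sqrt hr0.le]
  have hρ0 : 0 < ρ := by linarith
  obtain ⟨C, hC0, hC⟩ := poly_exp ρ hρ1 τ
  refine ⟨⟨ρ, hρ1, ?_⟩, ?_, ?_⟩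
  · refine Summable.of_nonneg_of_le (fun g => by positivity) (fun g => ?_)
      (h1.mul_left (C / c))
    by_cases hg : g ∈ (R3 : Set (G3 N))
    · rw [indicator_of_notMem (by simpa using hg), norm_zero, zero_mul]
      positivity
    · rw [indicator_of_mem (by exact hg)]
      by_cases hFg : F g = 0
      · rw [hFg, zero_div, norm_zero, zero_mul, zero_mul, mul_zero]
      · obtain ⟨o1, o2⟩ := h3 g hFg
        have h4 := hd g o1 o2 hg
        have hn : (0 : ℝ) < (1 + (nr3 g : ℝ)) ^ τ := by positivity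
        have hs : 0 < |sg (th3 l) (frq l) g| := lt_of_lt_of_le (by positivity) h4
        rw [norm_div, norm_mul, Complex.norm_I, one_mul, Complex.norm_real, Real.norm_eq_abs]
        have h5 : ‖F g‖ / |sg (th3 l) (frq l) g| ≤ ‖F g‖ * ((1 + (nr3 g : ℝ)) ^ τ / c) := by
          rw [div_le_iff₀ hs, mul_assoc]
          refine le_mul_of_one_le_right (norm_nonneg _) ?_
          calc (1 : ℝ) = (1 + (nr3 g : ℝ)) ^ τ / c * (c / (1 + (nr3 g : ℝ)) ^ τ) := by
                field_simp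
            _ ≤ (1 + (nr3 g : ℝ)) ^ τ / c * |sg (th3 l) (frq l) g| :=
                mul_le_mul_of_nonneg_left h4 (by positivity)
        have h6 : ‖F g‖ * ((1 + (nr3 g : ℝ)) ^ τ / c) ≤ ‖F g‖ * (C * ρ ^ nr3 g / c) := by
          refine mul_le_mul_of_nonneg_left ?_ (norm_nonneg _)
          exact div_le_div_of_nonneg_right (hC _) hc.le
        calc ‖F g‖ / |sg (th3 l) (frq l) g| * ρ ^ nr3 g
            ≤ ‖F g‖ * (C * ρ ^ nr3 g / c) * ρ ^ nr3 g :=
              mul_le_mul_of_nonneg_right (le_trans h5 h6) (by positivity)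
          _ = C / c * (‖F g‖ * (ρ ^ nr3 g * ρ ^ nr3 g)) := by ring
          _ = C / c * (‖F g‖ * r ^ nr3 g) := by rw [← mul_pow, hρ2]
  · intro p k i
    by_cases hg : ((p, k) : G3 N) ∈ (R3 : Set (G3 N))
    · have hg' : ((p, flp i k) : G3 N) ∈ (R3 : Set (G3 N)) := (R3_flp i p k).2 hg
      rw [indicator_of_notMem (by simpa using hg'), indicator_of_notMem (by simpa using hg)]
    · have hg' : ((p, flp i k) : G3 N) ∉ (R3 : Set (G3 N)) := fun h => hg ((R3_flp i p k).1 h)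
      rw [indicator_of_mem (by exact hg'), indicator_of_mem (by exact hg), h2]
      have h4 : sg (th3 l) (frq l) ((p, flp i k) : G3 N) = sg (th3 l) (frq l) ((p, k) : G3 N) := by
        show th3 l p - frq l (flp i k) = th3 l p - frq l k
        rw [frq_flp]
      rw [h4]
  · intro g hg
    by_cases hgR : g ∈ (R3 : Set (G3 N))
    · exact absurd (indicator_of_notMem (by simpa using hgR) _) hg
    · rw [indicator_of_mem (by exact hgR)] at hg
      exact h3 g fun h0 => hg (by rw [h0, zero_div])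

/-- row GDN -/
theorem gdn (t3a : T3aStmt) (t3s : T3sStmt) : GdnStmt := by
  intro N l hN hl hdiv
  refine ⟨fun F G hF hG => good_add hF hG, fun c F hF => good_smul (c : ℂ) hF,
    fun F G H hF hG hH => good_t3 t3a t3s (good_vp hF) (good_vp hG) (good_vp hH),
    fun F hF => good_div l hdiv hF, fun F hF => good_sum hF, ?_, ?_⟩
  · intro F hF g hg hs
    obtain ⟨-, h2, h3⟩ := hF
    obtain ⟨c, hc, τ, hd⟩ := hdiv
    by_contra h0
    obtain ⟨o1, o2⟩ := h3 g h0
    have h4 := hd g o1 o2 hg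
    rw [hs, abs_zero] at h4
    have h5 : 0 < c / (1 + (nr3 g : ℝ)) ^ τ := by positivity
    linarith
  · intro F hF
    obtain ⟨⟨r, hr, h1⟩, h2, h3⟩ := hF
    obtain ⟨C, hC0, hC⟩ := poly_exp r hr 3
    obtain ⟨ω, hω⟩ : ∃ ω : ℝ, ω = |frq l (fun _ => 1)| := ⟨_, rfl⟩
    have hω0 : 0 ≤ ω := by rw [hω]; exact abs_nonneg _
    unfold Sm
    refine Summable.of_nonneg_of_le (fun g => ?_) (fun g => ?_) (h1.mul_left ((1 + ω) * C))
    · unfold w2
      positivity
    · have hn0 : (0 : ℝ) ≤ (nr3 g : ℝ) := Nat.cast_nonneg _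
      have e1 : |th3 l g.1| ≤ ω * (1 + (nr3 g : ℝ)) := by
        show |(g.1 : ℝ) * frq l (fun _ => 1)| ≤ _
        rw [abs_mul, ← hω, mul_comm]
        refine mul_le_mul_of_nonneg_left ?_ hω0
        have h4 : |(g.1 : ℝ)| = ((g.1.natAbs : ℕ) : ℝ) := by
          rw [Nat.cast_natAbs, Int.cast_abs]
        have h5 : g.1.natAbs ≤ nr3 g := by
          unfold nr3
          omega
        have h6 : ((g.1.natAbs : ℕ) : ℝ) ≤ (nr3 g : ℝ) := by exact_mod_cast h5
        rw [h4]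
        linarith
      have e2 : w2 g.2 ≤ (1 + (nr3 g : ℝ)) ^ 2 := by
        unfold w2
        have h4 : ∑ i, |((g.2 i : ℤ) : ℝ)| = ((∑ i, (g.2 i).natAbs : ℕ) : ℝ) := by
          rw [Nat.cast_sum]
          refine Finset.sum_congr rfl fun i _ => ?_
          rw [Nat.cast_natAbs, Int.cast_abs]
        have h5 : ∑ i, (g.2 i).natAbs ≤ nr3 g := by
          unfold nr3
          omega
        have h6 : ((∑ i, (g.2 i).natAbs : ℕ) : ℝ) ≤ (nr3 g : ℝ) := by exact_mod_cast h5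
        rw [h4]
        exact pow_le_pow_left₀ (by positivity) (by linarith) 2
      have e3 : (1 + |th3 l g.1|) * w2 g.2 ≤ (1 + ω) * C * r ^ nr3 g := by
        have h4 : 1 + |th3 l g.1| ≤ (1 + ω) * (1 + (nr3 g : ℝ)) := by nlinarith
        calc (1 + |th3 l g.1|) * w2 g.2
            ≤ (1 + ω) * (1 + (nr3 g : ℝ)) * (1 + (nr3 g : ℝ)) ^ 2 :=
              mul_le_mul h4 e2 (by unfold w2; positivity) (by positivity)
          _ = (1 + ω) * (1 + (nr3 g : ℝ)) ^ 3 := by ring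
          _ ≤ (1 + ω) * (C * r ^ nr3 g) := mul_le_mul_of_nonneg_left (hC _) (by linarith)
          _ = (1 + ω) * C * r ^ nr3 g := by ring
      calc ‖F g‖ * ((1 + |th3 l g.1|) * w2 g.2) ≤ ‖F g‖ * ((1 + ω) * C * r ^ nr3 g) :=
            mul_le_mul_of_nonneg_left e3 (norm_nonneg _)
        _ = (1 + ω) * C * (‖F g‖ * r ^ nr3 g) := by ring

end

end Pool.Agent.BOX.H24
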